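import Pool.Agent.Helper58.DM.Goals

/-!
# Project DM (MP_06d934_gt): packet M_EIN (the Einstein equation), and M_LNK
-/

set_option autoImplicit false

namespace Pool.Agent.Helper83.DM

open Matrix Pool.Agent.Helper58.DH Pool.Agent.Helper58.DM

/-- The Ricci form in terms of the Ricci components. -/
theorem link (hENT : M_ENT) (hRIC : M_RIC) (hRHO : M_RHO) : M_LNK := by
  intro I _ _ F p q m w hS hk hw κ _ _ e he X hX
  obtain ⟨-, m2, m3, -, -, -⟩ := hENT I F hk
  obtain ⟨⟨hs, -⟩, hoff⟩ := (m2 X).1 hX
  have h1 := hRIC I F w κ e hk hw he X hX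
  have h2 := m3 (fun c ↦ ric (dF (-F.η) p q m) (AF (-F.η) p q m) w c * w c) X X hs hs
  have hcls : ∀ a b : Fin 5, cls a b = none → a = b := by decide
  have h3 : ((Ric F w e X : ℝ) : ℂ) =
      ((gx F (fun c ↦ ric (dF (-F.η) p q m) (AF (-F.η) p q m) w c * w c) X X : ℝ) : ℂ) := by
    rw [h1, h2]
    unfold Gc
    congr 1
    refine Finset.sum_congr rfl fun i _ ↦ Finset.sum_congr rfl fun j _ ↦ ?_
    rcases hc : cls (F.bl i) (F.bl j) with _ | c
    · rw [hoff i j (hcls _ _ hc), zero_mul, mul_zero, mul_zero]
    · rw [hRHO I F p q m w hS hw i j c hc]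
      unfold xx
      rw [hc]
      rfl
  exact_mod_cast h3

/-- **M_EIN**. -/
theorem m_ein (hENT : M_ENT) (hRIC : M_RIC) (hRHO : M_RHO) (hONB : M_ONB) : M_EIN := by
  intro I _ _ F p q m w c₀ hS hk hF hw
  have hlnk := link hENT hRIC hRHO I F p q m w hS hk hw
  obtain ⟨-, m2, -, m4, -, -⟩ := hENT I F hk
  constructor
  · intro hE c
    obtain ⟨n, e, he⟩ := hONB I F w hk hw
    obtain ⟨X, hX, hXc, hX0⟩ := hF c
    have h1 := hE (Fin n) e he X hX
    have h2 := hlnk (Fin n) e he X hX
    obtain ⟨⟨hs, -⟩, -⟩ := (m2 X).1 hX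
    have hcomp : ∀ d, d ≠ c → Pool.Agent.Helper58.DM.comp F d X = 0 := by
      intro d hd
      ext i j
      have h3 : X i j = if cls (F.bl i) (F.bl j) = some c then X i j else 0 :=
        (congrFun (congrFun hXc i) j).symm
      unfold Pool.Agent.Helper58.DM.comp
      rw [Matrix.zero_apply]
      split_ifs with h4
      · rw [h3, if_neg]
        rw [h4]
        intro h5
        exact hd (Option.some.inj h5)
      · rfl
    have hg : ∀ w' : Fin 6 → ℝ, gx F w' X X = w' c * B F X X := by
      intro w'
      unfold gx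
      rw [Finset.sum_eq_single c]
      · rw [hXc]
      · intro d _ hd
        rw [hcomp d hd]
        unfold B
        simp
      · intro h
        exact absurd (Finset.mem_univ c) h
    have hB : 0 < B F X X := by
      have h3 := m4 X X hs hs
      have h4 : ∀ i j, X i j * X j i = -((Complex.normSq (X i j) : ℝ) : ℂ) := by
        intro i j
        have h5 : X j i = -(starRingEnd ℂ) (X i j) := by
          have h6 := congrFun (congrFun hs j) i
          rw [Matrix.conjTranspose_apply, Matrix.neg_apply] at h6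
          rw [← neg_eq_iff_eq_neg, ← h6]
          rfl
        rw [h5, mul_neg, Complex.mul_conj]
      have h7 : B F X X = kk F * ∑ i, ∑ j, Complex.normSq (X i j) := by
        have h8 : ((B F X X : ℝ) : ℂ) = ((kk F * ∑ i, ∑ j, Complex.normSq (X i j) : ℝ) : ℂ) := by
          rw [h3]
          push_cast
          simp only [h4, Finset.sum_neg_distrib]
          ring
        exact_mod_cast h8
      rw [h7]
      refine mul_pos hk ?_
      obtain ⟨i, j, hij⟩ : ∃ i j, X i j ≠ 0 := by
        by_contra h9
        push Not at h9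
        exact hX0 (Matrix.ext h9)
      calc (0 : ℝ) < Complex.normSq (X i j) := Complex.normSq_pos.2 hij
        _ ≤ ∑ j, Complex.normSq (X i j) :=
          Finset.single_le_sum (f := fun j ↦ Complex.normSq (X i j))
            (fun j _ ↦ Complex.normSq_nonneg _) (Finset.mem_univ j)
        _ ≤ ∑ i, ∑ j, Complex.normSq (X i j) :=
          Finset.single_le_sum (f := fun i ↦ ∑ j, Complex.normSq (X i j))
            (fun i _ ↦ Finset.sum_nonneg fun j _ ↦ Complex.normSq_nonneg _) (Finset.mem_univ i)
    rw [h1, hg, hg] at h2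
    have h3 : (c₀ - ric (dF (-F.η) p q m) (AF (-F.η) p q m) w c) * (w c * B F X X) = 0 := by
      linear_combination h2
    rcases mul_eq_zero.1 h3 with h4 | h4
    · linarith
    · exact absurd h4 (mul_pos (hw c) hB).ne'
  · intro hr κ _ _ e he X hX
    rw [hlnk κ e he X hX]
    simp only [hr]
    unfold gx
    rw [Finset.mul_sum]
    refine Finset.sum_congr rfl fun c _ ↦ ?_
    ring

end Pool.Agent.Helper83.DM
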